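import Pool.Agent.helper90.ZD.SpecB

/-!
# Project zd (MP_4467b5_nt), module BT3: the trace of the cube
-/

set_option autoImplicit false

open Complex MeasureTheory
open scoped ComplexOrder

namespace Pool.Agent.ZD

open Pool.Agent.helper84.DM Pool.Agent.helper78.ED Pool.Agent.DH

theorem BT3_tr (W : Finset ℝ) (X : ℝ) :
    (BMat W X * BMat W X * BMat W X).trace =
      ∑ t₁ ∈ W, ∑ t₂ ∈ W, ∑ t₃ ∈ W, BX X (t₁ - t₂) * BX X (t₂ - t₃) * BX X (t₃ - t₁) := by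
  have h1 : (BMat W X * BMat W X * BMat W X).trace =
      ∑ t₁ : W, ∑ t₂ : W, ∑ t₃ : W,
        BX X ((t₁ : ℝ) - t₂) * BX X ((t₂ : ℝ) - t₃) * BX X ((t₃ : ℝ) - t₁) := by
    rw [Matrix.trace]
    refine Finset.sum_congr rfl fun t₁ _ => ?_
    rw [Matrix.diag_apply, Matrix.mul_apply]
    have h2 : ∀ t₃ : W, (BMat W X * BMat W X) t₁ t₃ * BMat W X t₃ t₁ =
        ∑ t₂ : W, BX X ((t₁ : ℝ) - t₂) * BX X ((t₂ : ℝ) - t₃) * BX X ((t₃ : ℝ) - t₁) := by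
      intro t₃
      rw [Matrix.mul_apply, Finset.sum_mul]
      rfl
    rw [Finset.sum_congr rfl fun t₃ _ => h2 t₃, Finset.sum_comm]
  rw [h1, Finset.sum_coe_sort W (fun t₁ => ∑ t₂ : W, ∑ t₃ : W,
    BX X ((t₁ : ℝ) - t₂) * BX X ((t₂ : ℝ) - t₃) * BX X ((t₃ : ℝ) - t₁))]
  refine Finset.sum_congr rfl fun t₁ _ => ?_
  rw [Finset.sum_coe_sort W (fun t₂ => ∑ t₃ : W,
    BX X ((t₁ : ℝ) - t₂) * BX X ((t₂ : ℝ) - t₃) * BX X ((t₃ : ℝ) - t₁))]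
  refine Finset.sum_congr rfl fun t₂ _ => ?_
  rw [Finset.sum_coe_sort W (fun t₃ =>
    BX X ((t₁ : ℝ) - t₂) * BX X ((t₂ : ℝ) - t₃) * BX X ((t₃ : ℝ) - t₁))]

theorem BT3 (hBT1 : BT1_stmt) : BT3_stmt := by
  intro W X
  obtain ⟨hpos, -, hdiag⟩ := hBT1 W (fun _ => 0) X 0
  have hself : ∀ t ∈ W, BX X (t - t) = ((mu X : ℝ) : ℂ) := fun t ht => hdiag ⟨t, ht⟩
  have hconj : ∀ t ∈ W, ∀ t' ∈ W, BX X (t - t') * BX X (t' - t) =
      ((‖BX X (t - t')‖ ^ 2 : ℝ) : ℂ) := by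
    intro t ht t' ht'
    have h1 := hpos.isHermitian.apply ⟨t, ht⟩ ⟨t', ht'⟩
    have h2 : star (BX X (t' - t)) = BX X (t - t') := h1
    have h3 : BX X (t' - t) = star (BX X (t - t')) := by rw [← h2, star_star]
    rw [h3]
    change BX X (t - t') * (starRingEnd ℂ) (BX X (t - t')) = _
    rw [Complex.mul_conj, Complex.normSq_eq_norm_sq]
  set g : ℝ → ℝ → ℂ := fun t t' => ((if t = t' then 0 else ‖BX X (t - t')‖ ^ 2 : ℝ) : ℂ) with hg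
  have hpt : ∀ t₁ ∈ W, ∀ t₂ ∈ W, ∀ t₃ ∈ W,
      BX X (t₁ - t₂) * BX X (t₂ - t₃) * BX X (t₃ - t₁) =
      (if t₁ = t₂ then (if t₂ = t₃ then ((mu X : ℝ) : ℂ) ^ 3 else 0) else 0) +
      (if t₁ = t₂ then ((mu X : ℝ) : ℂ) * g t₂ t₃ else 0) +
      (if t₂ = t₃ then ((mu X : ℝ) : ℂ) * g t₁ t₂ else 0) +
      (if t₃ = t₁ then ((mu X : ℝ) : ℂ) * g t₁ t₂ else 0) +
      (if t₁ = t₂ ∨ t₂ = t₃ ∨ t₃ = t₁ then 0 else
        BX X (t₁ - t₂) * BX X (t₂ - t₃) * BX X (t₃ - t₁)) := by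
    intro t₁ h1 t₂ h2 t₃ h3
    by_cases e12 : t₁ = t₂
    · subst e12
      by_cases e13 : t₁ = t₃
      · subst e13
        rw [hself t₁ h1]
        simp only [hg, if_true, true_or, Complex.ofReal_zero, mul_zero, add_zero]
        ring
      · have e31 : ¬ t₃ = t₁ := fun h => e13 h.symm
        rw [hself t₁ h1, mul_assoc, hconj t₁ h1 t₃ h3]
        simp only [hg, if_true, true_or, if_neg e13, if_neg e31, zero_add, add_zero]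
    · by_cases e23 : t₂ = t₃
      · subst e23
        have e21 : ¬ t₂ = t₁ := fun h => e12 h.symm
        rw [hself t₂ h2, mul_assoc, mul_comm ((mu X : ℝ) : ℂ), ← mul_assoc, hconj t₁ h1 t₂ h2]
        simp only [hg, if_true, true_or, or_true, if_neg e12, if_neg e21, zero_add, add_zero]
        ring
      · by_cases e31 : t₃ = t₁
        · subst e31
          have e32 : ¬ t₃ = t₂ := e12
          rw [hself t₃ h3, hconj t₃ h3 t₂ h2]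
          simp only [hg, if_true, or_true, if_neg e12, if_neg e23, zero_add, add_zero]
          ring
        · have hn : ¬ (t₁ = t₂ ∨ t₂ = t₃ ∨ t₃ = t₁) := by
            rintro (h | h | h)
            · exact e12 h
            · exact e23 h
            · exact e31 h
          rw [if_neg e12, if_neg e12, if_neg e23, if_neg e31, if_neg hn]
          ring
  have hsum : ∑ t₁ ∈ W, ∑ t₂ ∈ W, g t₁ t₂ = ((SD X W : ℝ) : ℂ) := by
    rw [SD, Complex.ofReal_sum]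
    refine Finset.sum_congr rfl fun t₁ _ => ?_
    rw [Complex.ofReal_sum]
  rw [BT3_tr]
  have hrw : ∑ t₁ ∈ W, ∑ t₂ ∈ W, ∑ t₃ ∈ W, BX X (t₁ - t₂) * BX X (t₂ - t₃) * BX X (t₃ - t₁) =
      ∑ t₁ ∈ W, ∑ t₂ ∈ W, ∑ t₃ ∈ W,
      ((if t₁ = t₂ then (if t₂ = t₃ then ((mu X : ℝ) : ℂ) ^ 3 else 0) else 0) +
      (if t₁ = t₂ then ((mu X : ℝ) : ℂ) * g t₂ t₃ else 0) +
      (if t₂ = t₃ then ((mu X : ℝ) : ℂ) * g t₁ t₂ else 0) +
      (if t₃ = t₁ then ((mu X : ℝ) : ℂ) * g t₁ t₂ else 0) +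
      (if t₁ = t₂ ∨ t₂ = t₃ ∨ t₃ = t₁ then 0 else
        BX X (t₁ - t₂) * BX X (t₂ - t₃) * BX X (t₃ - t₁))) :=
    Finset.sum_congr rfl fun t₁ h1 => Finset.sum_congr rfl fun t₂ h2 =>
      Finset.sum_congr rfl fun t₃ h3 => hpt t₁ h1 t₂ h2 t₃ h3
  rw [hrw]
  simp only [Finset.sum_add_distrib]
  have s1 : ∑ t₁ ∈ W, ∑ t₂ ∈ W, ∑ t₃ ∈ W,
      (if t₁ = t₂ then (if t₂ = t₃ then ((mu X : ℝ) : ℂ) ^ 3 else 0) else 0) =
      (W.card : ℂ) * ((mu X : ℝ) : ℂ) ^ 3 := by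
    have : ∀ t₁ ∈ W, ∑ t₂ ∈ W, ∑ t₃ ∈ W,
        (if t₁ = t₂ then (if t₂ = t₃ then ((mu X : ℝ) : ℂ) ^ 3 else 0) else 0) =
        ((mu X : ℝ) : ℂ) ^ 3 := by
      intro t₁ h1
      have h2 : ∀ t₂ ∈ W, ∑ t₃ ∈ W,
          (if t₁ = t₂ then (if t₂ = t₃ then ((mu X : ℝ) : ℂ) ^ 3 else 0) else 0) =
          if t₁ = t₂ then ((mu X : ℝ) : ℂ) ^ 3 else 0 := by
        intro t₂ h2
        split_ifs with h
        · rw [Finset.sum_ite_eq, if_pos h2]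
        · exact Finset.sum_const_zero
      rw [Finset.sum_congr rfl h2, Finset.sum_ite_eq, if_pos h1]
    rw [Finset.sum_congr rfl this, Finset.sum_const, nsmul_eq_mul]
  have s2 : ∑ t₁ ∈ W, ∑ t₂ ∈ W, ∑ t₃ ∈ W,
      (if t₁ = t₂ then ((mu X : ℝ) : ℂ) * g t₂ t₃ else 0) = ((mu X : ℝ) : ℂ) * ((SD X W : ℝ) : ℂ) := by
    rw [← hsum, Finset.mul_sum]
    refine Finset.sum_congr rfl fun t₁ h1 => ?_
    have h2 : ∀ t₂ ∈ W, ∑ t₃ ∈ W, (if t₁ = t₂ then ((mu X : ℝ) : ℂ) * g t₂ t₃ else 0) =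
        if t₁ = t₂ then ((mu X : ℝ) : ℂ) * ∑ t₃ ∈ W, g t₂ t₃ else 0 := by
      intro t₂ h2
      split_ifs with h
      · rw [Finset.mul_sum]
      · exact Finset.sum_const_zero
    rw [Finset.sum_congr rfl h2, Finset.sum_ite_eq, if_pos h1]
  have s3 : ∑ t₁ ∈ W, ∑ t₂ ∈ W, ∑ t₃ ∈ W,
      (if t₂ = t₃ then ((mu X : ℝ) : ℂ) * g t₁ t₂ else 0) = ((mu X : ℝ) : ℂ) * ((SD X W : ℝ) : ℂ) := by
    rw [← hsum, Finset.mul_sum]
    refine Finset.sum_congr rfl fun t₁ h1 => ?_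
    rw [Finset.mul_sum]
    refine Finset.sum_congr rfl fun t₂ h2 => ?_
    rw [Finset.sum_ite_eq, if_pos h2]
  have s4 : ∑ t₁ ∈ W, ∑ t₂ ∈ W, ∑ t₃ ∈ W,
      (if t₃ = t₁ then ((mu X : ℝ) : ℂ) * g t₁ t₂ else 0) = ((mu X : ℝ) : ℂ) * ((SD X W : ℝ) : ℂ) := by
    rw [← hsum, Finset.mul_sum]
    refine Finset.sum_congr rfl fun t₁ h1 => ?_
    rw [Finset.mul_sum]
    refine Finset.sum_congr rfl fun t₂ _ => ?_
    rw [Finset.sum_ite_eq', if_pos h1]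
  rw [s1, s2, s3, s4]
  unfold CS
  push_cast
  ring

end Pool.Agent.ZD

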